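import Mathlib
import Pool.Prelude.Def_F_b2ee6af0
import Pool.Agent.Helper69.TS.Final

/-!
# Residue classes modulo primes near `N ^ α`, `1/2 < α < 1`: a third of the gap

`N7c497599.sievedCard N a lo hi` is the number of integers `n` with `1 ≤ n ≤ N` such that
`n ≡ a p (mod p)` for at least one prime `p` with `lo ≤ p < hi`.
Counting pairs of classes and the Cauchy-Schwarz inequality gives the lower bound
`N ^ (2 - 2 α - o(1))` for the primes in `[N ^ α, 2 N ^ α)`; the conjectured bound is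
`N ^ (1 - o(1))`.  The theorem below closes about one third of the gap between these exponents,
for every `α` in `(1/2, 1)`.
-/

namespace Pool.Agent.Results.MP_d7f79e_nt.OneThird

open Filter

/-- (1) The exponent `2 - 2 α + η` is reached for every `η ≥ 0` for which there is an integer
`l ≥ 1` with `l η < α` and `2 η + α / l < 2 α - 1`.
(2) In particular the exponent `2 - 2 α + α (2 α - 1) / (5 α - 1)` is reached for every `α`.
(3) In particular, for `α = 0.51`, the exponent `0.9866` is reached. -/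
theorem result :
    (∀ (α η : ℝ) (l : ℕ), 1 / 2 < α → α < 1 → 0 ≤ η → 1 ≤ l → l * η < α →
      2 * η + α / l < 2 * α - 1 → ∀ᶠ N : ℕ in atTop, ∀ a : ℕ → ℤ,
        (N : ℝ) ^ (2 - 2 * α + η) ≤
          (N7c497599.sievedCard N a ((N : ℝ) ^ α) (2 * (N : ℝ) ^ α) : ℝ)) ∧
    (∀ α : ℝ, 1 / 2 < α → α < 1 → ∀ᶠ N : ℕ in atTop, ∀ a : ℕ → ℤ,
        (N : ℝ) ^ (2 - 2 * α + α * (2 * α - 1) / (5 * α - 1)) ≤
          (N7c497599.sievedCard N a ((N : ℝ) ^ α) (2 * (N : ℝ) ^ α) : ℝ)) ∧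
    (∀ᶠ N : ℕ in atTop, ∀ a : ℕ → ℤ, (N : ℝ) ^ (0.9866 : ℝ) ≤
        (N7c497599.sievedCard N a ((N : ℝ) ^ (0.51 : ℝ)) (2 * (N : ℝ) ^ (0.51 : ℝ)) : ℝ)) := by
  refine ⟨fun α η l h1 h2 h3 h4 h5 h6 => Pool.Agent.Helper69.TS.main α η l h1 h2 h3 h4 h5 h6,
    fun α h1 h2 => Pool.Agent.Helper69.TS.main_closed α h1 h2, ?_⟩
  have h := Pool.Agent.Helper69.TS.main 0.51 0.0066 76 (by norm_num) (by norm_num) (by norm_num)
    (by norm_num) (by norm_num) (by norm_num)
  have e : (2 : ℝ) - 2 * 0.51 + 0.0066 = 0.9866 := by norm_num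
  rw [e] at h
  exact h

end Pool.Agent.Results.MP_d7f79e_nt.OneThird
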